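import Pool.Agent.Lib.MP_0350c1_lc.Y7

namespace Pool.Agent.Results.MP_0350c1_lc.BalancedConstant

open Pool.Agent.Lib.MP_0350c1_lc

/-- On grids of bounded aspect ratio, the output law of a decomposable probabilistic circuit of
subexponential size is almost singular to the uniform law on balanced connected two-piece
partitions, for every balance tolerance. -/
theorem result (ρ : ℕ) : ∃ c : ℝ, 0 < c ∧ ∃ k₀ : ℕ, ∀ m n : ℕ, k₀ ≤ m → k₀ ≤ n →
    m ≤ ρ * n → n ≤ ρ * m → ∀ D : ℝ, 1 ≤ D → ∀ Q : Finset (Sym2 (Finset (Fin m × Fin n))),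
      (∀ π, π ∈ Q ↔ IsPart (grid m n) π ∧
        ∃ A B : Finset (Fin m × Fin n), π = s(A, B) ∧ |(A.card : ℝ) - B.card| ≤ D) →
      ∀ (s : ℕ) (C : Circuit (Fin m × Fin n) s) (r : Fin s), C.scope r = Finset.univ →
        1 - (s + 1) / 2 ^ (c * (min m n : ℕ)) ≤ tv (push classes (C.val r)) (unif Q) :=
  balanced_main ρ

end Pool.Agent.Results.MP_0350c1_lc.BalancedConstant
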