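import Pool.Agent.Lib.MP_0350c1_lc.Z13

namespace Pool.Agent.Results.MP_0350c1_lc.ConstantError

open Pool.Agent.Lib.MP_0350c1_lc

/-- The output law of a decomposable probabilistic circuit of subexponential size is almost
singular to the uniform law on connected two-piece partitions of a grid. -/
theorem result : ∃ c : ℝ, 0 < c ∧ ∃ k₀ : ℕ, ∀ m n : ℕ, k₀ ≤ m → k₀ ≤ n →
    ∀ P Q : Finset (Sym2 (Finset (Fin m × Fin n))), (∀ π, π ∈ P ↔ IsPart (grid m n) π) → Q ⊆ P →
      Q.Nonempty →
      ∀ (s : ℕ) (C : Circuit (Fin m × Fin n) s) (r : Fin s), C.scope r = Finset.univ →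
        1 - (s + 1) * (m * n) * ((P.card : ℝ) / Q.card) ^ 2 / 2 ^ (c * (min m n : ℕ)) ≤
          tv (push classes (C.val r)) (unif Q) := dense_main

end Pool.Agent.Results.MP_0350c1_lc.ConstantError
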