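import Pool.Agent.Lib.MP_0350c1_lc.Edge

namespace Pool.Agent.Results.MP_0350c1_lc.CutCircuits

open Pool.Agent.Lib.MP_0350c1_lc

/-- Decomposable probabilistic circuits over the edges that sample the cut of a connected
two-piece partition of a grid have exponential size in the width of the grid. -/
theorem result : ∃ c : ℝ, 0 < c ∧ ∃ k₀ : ℕ, ∀ m n : ℕ, k₀ ≤ m → k₀ ≤ n →
    ∀ Q : Finset (Sym2 (Finset (Fin m × Fin n))), (∀ π ∈ Q, IsPart (grid m n) π) →
      (∀ π, IsPart (grid m n) π → IsBalanced π → π ∈ Q) →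
      ∀ (s : ℕ) (C : Circuit (grid m n).edgeSet s) (r : Fin s), C.scope r = Finset.univ →
        tv (C.val r) (push (cutOf (grid m n)) (unif Q)) ≤ 1 / ((Q.card : ℝ) * 2 ^ min m n) →
        (2 : ℝ) ^ (c * (min m n : ℕ)) ≤ s := edge_main

end Pool.Agent.Results.MP_0350c1_lc.CutCircuits
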